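import Mathlib
import Pool.Agent.MP_20bec2_an.Final

set_option autoImplicit false
open MeasureTheory Set

namespace Pool.Agent.MP_20bec2_an.parked.PolyLog

/-- the unit cube in Euclidean space -/
def cube (d : ℕ) : Set (EuclideanSpace ℝ (Fin d)) := {x | ∀ i, x i ∈ Icc (0 : ℝ) 1}

/-- Every continuous positive density on the cube is bi-omega realisable for
omega(t) = t log(1/t)^beta, for every beta > 7 and in every dimension d at least 2. -/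
theorem result (d : ℕ) (hd : 2 ≤ d) (β : ℝ) (hβ : 7 < β) (ρ : EuclideanSpace ℝ (Fin d) → ℝ)
    (hρ : ContinuousOn ρ (cube d)) (hpos : ∀ x ∈ cube d, 0 < ρ x) :
    ∃ f : EuclideanSpace ℝ (Fin d) → EuclideanSpace ℝ (Fin d), InjOn f (cube d) ∧
      (∃ C t₀ : ℝ, 0 < C ∧ 0 < t₀ ∧ t₀ < 1 ∧ ∀ x ∈ cube d, ∀ y ∈ cube d,
        (‖x - y‖ ≤ t₀ → ‖f x - f y‖ ≤ C * (‖x - y‖ * Real.log (1 / ‖x - y‖) ^ β)) ∧
        (‖f x - f y‖ ≤ t₀ → ‖x - y‖ ≤ C * (‖f x - f y‖ * Real.log (1 / ‖f x - f y‖) ^ β))) ∧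
      ∀ B, MeasurableSet B →
        ∫⁻ x in cube d ∩ f ⁻¹' B, ENNReal.ofReal (ρ x) = volume (B ∩ f '' cube d) := by
  obtain ⟨m, rfl⟩ : ∃ m, d = m + 1 := ⟨d - 1, by omega⟩
  exact Pool.Agent.MP_20bec2_an.final (by omega) hβ _ rfl ρ hρ hpos

end Pool.Agent.MP_20bec2_an.parked.PolyLog
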